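import Pool.Agent.D0H34.KC.Stm3

/-!
Project KC (helper34), third round, module G2: `f ≡ F` modulo `p` and `f(0)` exactly divisible by `p`.
-/

set_option autoImplicit false

open Polynomial

namespace Pool.Agent.D0H51.KC

open Pool.Agent.D0H34.KC

theorem t_G2 : S_G2 := by
  intro n k d p a c F g₀ R hp hkd hd hF hg₀ hg₀d hA hc
  obtain ⟨A, hAe⟩ : ∃ A : ℤ[X], A = ∏ i, (X - C (a i)) := ⟨_, rfl⟩
  rw [← hAe] at hA
  have h0 : A.coeff 0 * g₀.coeff 0 = F.coeff 0 - 1 + p * R.coeff 0 := by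
    have h1 := congrArg (fun P : ℤ[X] => P.coeff 0) hA
    simpa [mul_coeff_zero] using h1
  obtain ⟨f0, hf0⟩ : (p : ℤ) ∣ F.coeff 0 := by
    rw [coeff_zero_eq_eval_zero]
    exact hF
  obtain ⟨c', hc'⟩ : (p : ℤ) ∣ c - 1 := hc.symm.dvd
  obtain ⟨m, hm⟩ : ∃ m : ℤ, m = f0 + R.coeff 0 + c' := ⟨_, rfl⟩
  have hm1 : A.coeff 0 * g₀.coeff 0 + c = p * m := by
    rw [h0, hf0, hm]
    linear_combination hc'
  obtain ⟨t, ht⟩ : ∃ t : ℤ, t = g₀.coeff 0 * (m - 1) := ⟨_, rfl⟩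
  obtain ⟨m', hm'⟩ : ∃ m' : ℤ, m' = (m - 1) * (m - c') := ⟨_, rfl⟩
  have ht1 : A.coeff 0 * t + m - 1 = p * m' := by
    rw [ht, hm']
    have e1 : A.coeff 0 * g₀.coeff 0 = p * m - c := by linarith
    have e2 : A.coeff 0 * (g₀.coeff 0 * (m - 1)) = (p * m - c) * (m - 1) := by rw [← e1]; ring
    rw [e2]
    linear_combination -(m - 1) * hc'
  refine ⟨fun j => if j = 0 then g₀.coeff 0 + p * t else g₀.coeff j, fun g hg hgd hco => ?_⟩
  have hdv : C (p : ℤ) ∣ g - g₀ := by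
    rw [C_dvd_iff_dvd_coeff]
    intro j
    rw [coeff_sub]
    rcases lt_trichotomy j d with hj | hj | hj
    · have h3 := hco j hj
      have h4 : (p : ℤ) ^ 2 ∣ g.coeff j - (if j = 0 then g₀.coeff 0 + p * t else g₀.coeff j) := h3.symm.dvd
      obtain ⟨y, hy⟩ := h4
      split_ifs at hy with hj0
      · subst hj0
        exact ⟨t + p * y, by linear_combination hy⟩
      · exact ⟨p * y, by linear_combination hy⟩
    · have h3 : g.coeff j = 1 := by
        rw [hj, ← hgd]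
        exact hg
      have h4 : g₀.coeff j = 1 := by
        rw [hj, ← hg₀d]
        exact hg₀
      rw [h3, h4, sub_self]
      exact dvd_zero _
    · rw [coeff_eq_zero_of_natDegree_lt (by omega), coeff_eq_zero_of_natDegree_lt (by omega), sub_self]
      exact dvd_zero _
  obtain ⟨S, hS⟩ := hdv
  have hpol : pol a g c = A * g + C c := by
    rw [hAe]
    rfl
  refine ⟨⟨R + A * S + C c', ?_⟩, ?_⟩
  · rw [hpol]
    have e1 : g = g₀ + C (p : ℤ) * S := by linear_combination hS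
    have e2 : (C c : ℤ[X]) = 1 + C (p : ℤ) * C c' := by
      rw [← C_mul, ← hc', C_sub, C_1]
      ring
    rw [e2, e1]
    linear_combination hA
  · intro h
    have h3 : (pol a g c).eval 0 = A.coeff 0 * g.coeff 0 + c := by
      rw [← coeff_zero_eq_eval_zero, hpol, coeff_add, mul_coeff_zero, coeff_C_zero]
    have h4 : (p : ℤ) ^ 2 ∣ g.coeff 0 - (if (0 : ℕ) = 0 then g₀.coeff 0 + p * t else g₀.coeff 0) :=
      (hco 0 (by omega)).symm.dvd
    rw [if_pos rfl] at h4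
    rw [h3] at h
    obtain ⟨x, hx⟩ := h
    obtain ⟨y, hy⟩ := h4
    have hp0 : (p : ℤ) ≠ 0 := by exact_mod_cast hp.ne_zero
    have h5 : (p : ℤ) * (1 - p * (x - A.coeff 0 * y - m')) = 0 := by
      have e1 : g.coeff 0 = g₀.coeff 0 + p * t + p ^ 2 * y := by linarith
      rw [e1] at hx
      linear_combination hx - hm1 - (p : ℤ) * ht1
    have h6 : 1 - (p : ℤ) * (x - A.coeff 0 * y - m') = 0 := (mul_eq_zero.1 h5).resolve_left hp0
    have h7 : (p : ℤ) ∣ 1 := ⟨x - A.coeff 0 * y - m', by linarith⟩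
    have h8 := Int.isUnit_iff.1 (isUnit_of_dvd_one h7)
    have := hp.two_le
    omega

end Pool.Agent.D0H51.KC
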