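import Pool.Agent.D0H34.KC.Stm3
import Pool.Agent.D0H16.KC.Loc

/-!
Project KC (helper34), third round, half of module TT: `f / (X - θ)` is irreducible over `ℚ(θ)`.
-/

set_option autoImplicit false

open Polynomial

namespace Pool.Agent.D0H51.KC

theorem irr_h (f : ℤ[X]) (p : ℕ) [Fact p.Prime] (t : ℚ_[p]) (E : ℚ_[p][X]) (hm : f.Monic)
    (hi : Irreducible f) (_hE : E.Monic) (hEi : Irreducible E)
    (hf : f.map (Int.castRingHom ℚ_[p]) = (X - C t) * E) (θ : AlgebraicClosure ℚ)
    (hθ : aeval θ f = 0) :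
    ∃ h : (IntermediateField.adjoin ℚ {θ})[X], h.Monic ∧ Irreducible h ∧
      f.map (Int.castRingHom (IntermediateField.adjoin ℚ {θ})) =
        (X - C (IntermediateField.AdjoinSimple.gen ℚ θ)) * h := by
  have hint : IsIntegral ℚ θ := ⟨f.map (algebraMap ℤ ℚ), hm.map _, by
    rw [← aeval_def, aeval_map_algebraMap]
    exact hθ⟩
  have hg : aeval (IntermediateField.AdjoinSimple.gen ℚ θ) f = 0 := by
    apply (algebraMap (IntermediateField.adjoin ℚ {θ}) (AlgebraicClosure ℚ)).injective
    rw [map_zero, ← aeval_algebraMap_apply, IntermediateField.AdjoinSimple.algebraMap_gen]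
    exact hθ
  have hall : ∀ y : IntermediateField.adjoin ℚ {θ}, ∃ P : ℚ[X],
      y = aeval (IntermediateField.AdjoinSimple.gen ℚ θ) P := by
    intro y
    obtain ⟨P, hP⟩ := (IntermediateField.adjoin.powerBasis hint).exists_eq_aeval' y
    rw [IntermediateField.adjoin.powerBasis_gen] at hP
    exact ⟨P, hP⟩
  have hτ : aeval t f = 0 := by
    have h1 := congrArg (fun P => eval t P) hf
    simp only [eval_mul, eval_sub, eval_X, eval_C, sub_self, zero_mul] at h1
    rw [eval_map] at h1
    rw [aeval_def, algebraMap_int_eq]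
    exact h1
  obtain ⟨φ, hφ⟩ := Pool.Agent.D0H16.KC.existsHom (IntermediateField.adjoin ℚ {θ}) ℚ_[p] f
    (IntermediateField.AdjoinSimple.gen ℚ θ) t hm hi hg hall hτ
  have hroot : (f.map (Int.castRingHom (IntermediateField.adjoin ℚ {θ}))).IsRoot
      (IntermediateField.AdjoinSimple.gen ℚ θ) := by
    rw [IsRoot.def, eval_map, ← algebraMap_int_eq, ← aeval_def]
    exact hg
  have hdiv := mul_divByMonic_eq_iff_isRoot.2 hroot
  obtain ⟨h, hh⟩ : ∃ h, h = f.map (Int.castRingHom (IntermediateField.adjoin ℚ {θ})) /ₘ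
      (X - C (IntermediateField.AdjoinSimple.gen ℚ θ)) := ⟨_, rfl⟩
  rw [← hh] at hdiv
  have hhm : h.Monic := by
    apply Monic.of_mul_monic_left (monic_X_sub_C (IntermediateField.AdjoinSimple.gen ℚ θ))
    rw [hdiv]
    exact hm.map _
  refine ⟨h, hhm, ?_, hdiv.symm⟩
  have hmap : h.map φ = E := by
    have h1 := congrArg (fun P => Polynomial.map φ P) hdiv
    simp only [Polynomial.map_mul, Polynomial.map_sub, map_X, map_C, hφ, Polynomial.map_map] at h1
    have h2 : φ.comp (Int.castRingHom (IntermediateField.adjoin ℚ {θ})) = Int.castRingHom ℚ_[p] :=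
      RingHom.ext_int _ _
    rw [h2, hf] at h1
    exact mul_left_cancel₀ (X_sub_C_ne_zero t) h1
  refine hhm.irreducible_of_irreducible_map φ h ?_
  rw [hmap]
  exact hEi

end Pool.Agent.D0H51.KC
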